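import Pool.Agent.Lib.MP_29ab50_al.TT.Main

set_option autoImplicit false

namespace Pool.Agent.Results.MP_29ab50_al.TorsionType

universe u

open scoped Pointwise in
/-- Let `D` be a set of positive integers, directed under divisibility, with an element `≥ 2`.
A periodic commutative semigroup `S` embeds into the power semigroup of an abelian group each
element of which is killed by a member of `D` if and only if every `a` with `a ^ (k + 1) = a` for
some `k > 0` has `a ^ (n + 1) = a` for a member `n` of `D`. The iterate of order `n` of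
`y ↦ a * y` at `a` is `a ^ (n + 1)`. -/
theorem result (S : Type u) [CommSemigroup S]
    (hS : ∀ a : S, {x : S | ∃ n : ℕ, x = (fun y => a * y)^[n] a}.Finite)
    (D : Set ℕ) (h0 : 0 ∉ D) (h2 : ∃ n ∈ D, 2 ≤ n)
    (hD : ∀ m ∈ D, ∀ n ∈ D, ∃ k ∈ D, m ∣ k ∧ n ∣ k) :
    (∃ (G : Type u) (_ : CommGroup G), (∀ g : G, ∃ n ∈ D, g ^ n = 1) ∧
      ∃ f : S → Set G, Function.Injective f ∧ (∀ s : S, (f s).Nonempty) ∧
        ∀ s t : S, f (s * t) = {x : G | ∃ a ∈ f s, ∃ b ∈ f t, x = a * b}) ↔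
    ∀ a : S, (∃ k : ℕ, 0 < k ∧ (fun y => a * y)^[k] a = a) →
      ∃ n ∈ D, (fun y => a * y)^[n] a = a := by
  have e : ∀ {G : Type u} [CommGroup G] (A B : Set G),
      A * B = {x : G | ∃ a ∈ A, ∃ b ∈ B, x = a * b} := by
    intro G _ A B
    ext x
    constructor
    · rintro ⟨a, ha, b, hb, rfl⟩
      exact ⟨a, ha, b, hb, rfl⟩
    · rintro ⟨a, ha, b, hb, rfl⟩
      exact ⟨a, ha, b, hb, rfl⟩
  constructor
  · rintro ⟨G, _, hG, f, hf, hne, hm⟩ a ⟨k, hk, ha⟩
    exact Pool.Agent.Lib.MP_29ab50_al.TT.nec S D h0 hG f hf hne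
      (fun s t => by rw [hm, e]) a hk ha
  · intro h
    obtain ⟨G, hG, htor, f, hf, hne⟩ := Pool.Agent.Lib.MP_29ab50_al.TT.suff S hS D h0 h2 hD h
    exact ⟨G, hG, htor, f, hf, hne, fun s t => by rw [map_mul, e]⟩

/-- The posed question is the case where `D` is the set of all positive integers. -/
theorem posed (S : Type u) [CommSemigroup S]
    (hS : ∀ a : S, {x : S | ∃ n : ℕ, x = (fun y => a * y)^[n] a}.Finite) :
    ∃ (G : Type u) (_ : CommGroup G), (∀ g : G, ∃ n : ℕ, 0 < n ∧ g ^ n = 1) ∧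
      ∃ f : S → Set G, Function.Injective f ∧ (∀ s : S, (f s).Nonempty) ∧
        ∀ s t : S, f (s * t) = {x : G | ∃ a ∈ f s, ∃ b ∈ f t, x = a * b} :=
  (result S hS {n | 0 < n} (Nat.lt_irrefl 0) ⟨2, Nat.two_pos, le_rfl⟩
    (fun m hm n hn => ⟨m * n, Nat.mul_pos hm hn, dvd_mul_right m n, dvd_mul_left n m⟩)).2
    fun _ h => h

end Pool.Agent.Results.MP_29ab50_al.TorsionType
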